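import Pool.Agent.L5helper4.DL.Poly
import Pool.Agent.Y532.QuadOne

/-!
# Primes `p` with `p ^ 2 + p + 1` almost prime: popular differences at all scales

Bateman and Stemmler conjecture that `p ^ 2 + p + 1` is prime for about `H x / (log x) ^ 2` primes `p ≤ x`. Here
`p ^ 2 + p + 1` is almost prime (without small prime factors, and then with a bounded number of prime factors).

Theorem. Let `P` be ANY set of at least `δ x / (log x) ^ 2` primes `p ≤ x` such that `p ^ 2 + p + 1` has no prime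
factor `≤ x ^ κ`. Then for EVERY `D` between `(log x) ^ B` and `x / (log x) ^ B` at least `c D` of the differences
`d ≤ D` have the property that ALL the parts `F ∋ 0` of the progression `0, 1, …, k - 1` occur in `P` with the
difference `d` at least `c x / (log x) ^ (2 |F|)` times, which is the order of magnitude predicted by the heuristics of
Hardy and Littlewood and of Bateman and Horn. With an absolute constant `r` the set of the primes `p ≤ x` such that
`p ^ 2 + p + 1` has at most `r` prime factors, all of them larger than `x ^ (1 / r)`, is such a set `P`.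

Method. A sieve majorant for the set in windows of length `D` (`Pool.Agent.Y843.HS`, helper843 and others), the
relative Szemerédi theorem of Conlon, Fox and Zhao (`Pool.Agent.Y727.PSP`, helper727 and others), and, for the
differences and the parts of the progression, `Pool.Agent.L5helper4.DL`; the lower bound for the number of the
elements of the last set is in `Pool.Agent.H373R2.T7` (with the theorem of Bombieri and Vinogradov).
-/

set_option autoImplicit false

namespace Pool.Agent.Results.MP_82233c_nt.PopularDifferences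

open Finset Filter
open Pool.Agent.W182.PW Pool.Agent.TH464.PW Pool.Agent.Y532

/-- `p` is prime and `p ^ 2 + p + 1` has at most `r` prime factors (with multiplicity), all of them
larger than `z`. -/
def AlmostPair (r : ℕ) (z : ℝ) (p : ℕ) : Prop :=
  p.Prime ∧ (p ^ 2 + p + 1).primeFactorsList.length ≤ r ∧
    ∀ q : ℕ, q.Prime → q ∣ p ^ 2 + p + 1 → z < (q : ℝ)

open Classical in
/-- the number of the elements `p` of `P` such that `p + j d` is in `P` for all `j ∈ F` -/
noncomputable def occurrences (P : Finset ℕ) (F : Finset ℕ) (d : ℕ) : ℕ :=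
  (P.filter (fun p => ∀ j ∈ F, p + j * d ∈ P)).card

open Classical in
/-- For all `D` between `(log x) ^ B` and `x / (log x) ^ B` at least `c D` of the `1 ≤ d ≤ D` are such that for
every `F ⊆ {0, …, k - 1}` with `0 ∈ F` at least `c x / (log x) ^ (2 |F|)` elements `p` of `P` are such that
`p + j d` is in `P` for all `j ∈ F`. -/
def Popular (k B : ℕ) (c : ℝ) (x : ℕ) (P : Finset ℕ) : Prop :=
  ∀ D : ℕ, Real.log x ^ B ≤ D → D * Real.log x ^ B ≤ x →
    c * D ≤ (((Icc 1 D).filter (fun d => ∀ F ⊆ range k, 0 ∈ F →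
      c * (x / Real.log x ^ (2 * F.card)) ≤ (occurrences P F d : ℝ))).card : ℝ)

lemma qu_eval (m : ℕ) : (quad 1 1 1).eval (m : ℤ) = ((m ^ 2 + m + 1 : ℕ) : ℤ) := by
  rw [quad_eval, val_eq]

lemma prime_almost {r : ℕ} {z : ℝ} {p : ℕ} (h : PrimeAlmost (fun _ : Fin 1 => quad 1 1 1) r z p) :
    AlmostPair r z p := by
  obtain ⟨h1, h2⟩ := h
  have h3 := h2 0
  simp only [qu_eval p, Int.natAbs_natCast] at h3
  exact ⟨h1, h3.1, fun q hq hd => h3.2 q hq (Int.natCast_dvd_natCast.2 hd)⟩

lemma sys : Pool.Agent.W123.RU.Poly.Sys (ext (fun _ : Fin 1 => quad 1 1 1)) :=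
  Pool.Agent.L5helper4.DL.sys_ext (fun _ : Fin 1 => quad 1 1 1)
    (fun _ => quad_irr 1 1 1 one_ne_zero hg1 hD1)
    (fun _ => by rw [quad_deg 1 1 1 one_ne_zero]; norm_num)
    (fun _ => by rw [quad_lead 1 1 1 one_ne_zero]; norm_num) (fun _ _ _ => Subsingleton.elim _ _)
    (fun _ h => by
      have h1 := quad_deg 1 1 1 one_ne_zero
      rw [h, Polynomial.natDegree_X] at h1
      omega) (fun p hp => by
      obtain ⟨m, h1, h2⟩ := hadm1 p hp
      refine ⟨m, h1, fun _ => ?_⟩
      rw [quad_eval]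
      exact h2)

open Classical in
/-- **Dense sets of primes `p` with `p ^ 2 + p + 1` almost prime.** -/
theorem result :
    (∀ (k : ℕ) (κ δ : ℝ), 0 < κ → κ < 1 → 0 < δ → ∃ (B : ℕ) (c : ℝ), 0 < c ∧ ∀ᶠ x : ℕ in atTop,
      ∀ P : Finset ℕ, (∀ p ∈ P, p ≤ x ∧ p.Prime ∧
        ∀ q : ℕ, q.Prime → q ∣ p ^ 2 + p + 1 → (x : ℝ) ^ κ < (q : ℝ)) →
      δ * (x / Real.log x ^ 2) ≤ P.card → Popular k B c x P) ∧
    ∃ r : ℕ, ∀ k : ℕ, ∃ (B : ℕ) (c : ℝ), 0 < c ∧ ∀ᶠ x : ℕ in atTop,
      Popular k B c x ((Icc 1 x).filter (fun p => AlmostPair r ((x : ℝ) ^ (1 / (r : ℝ))) p)) := by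
  have hdense : ∀ (k : ℕ) (κ δ : ℝ), 0 < κ → κ < 1 → 0 < δ → ∃ (B : ℕ) (c : ℝ), 0 < c ∧
      ∀ᶠ x : ℕ in atTop, ∀ P : Finset ℕ, (∀ p ∈ P, p ≤ x ∧ p.Prime ∧
        ∀ q : ℕ, q.Prime → q ∣ p ^ 2 + p + 1 → (x : ℝ) ^ κ < (q : ℝ)) →
      δ * (x / Real.log x ^ 2) ≤ P.card → Popular k B c x P := by
    intro k κ δ hκ hκ1 hδ
    obtain ⟨B, c, hc, h⟩ := Pool.Agent.L5helper4.DL.polyDense (fun _ : Fin 1 => quad 1 1 1) sys k κ δ
      hκ hκ1 hδ
    refine ⟨B, c, hc, ?_⟩
    filter_upwards [h] with x hx P hP hPc D hD1 hD2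
    have h1 := hx P (fun p hp => ⟨(hP p hp).1, (hP p hp).2.1, fun _ q hq hd => by
      rw [qu_eval] at hd
      exact (hP p hp).2.2 q hq (Int.natCast_dvd_natCast.1 hd)⟩) (by
      simpa using hPc) D hD1 hD2
    simp only [Fintype.card_fin] at h1
    unfold occurrences
    convert h1 using 4
  refine ⟨hdense, ?_⟩
  obtain ⟨R, hR, h⟩ := Pool.Agent.L5helper4.DL.polyPrimes (fun _ : Fin 1 => quad 1 1 1) sys
  refine ⟨R, fun k => ?_⟩
  obtain ⟨B₁, c₁, hc₁, h1⟩ := h 1
  have hRr : (2 : ℝ) ≤ R := by exact_mod_cast hR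
  obtain ⟨B, c, hc, h2⟩ := hdense k (1 / (R : ℝ)) c₁ (by positivity) (by
    rw [div_lt_one (by linarith)]
    linarith) hc₁
  refine ⟨B, c, hc, ?_⟩
  have tN : Tendsto (fun N : ℕ => (N : ℝ)) atTop atTop := tendsto_natCast_atTop_atTop
  have hlogN : ∀ᶠ x : ℕ in atTop, Real.log x ^ (2 * B₁ + 2) ≤ x := by
    have h3 := (isLittleO_log_rpow_rpow_atTop ((2 * B₁ + 2 : ℕ) : ℝ) one_pos).bound one_pos
    filter_upwards [tN.eventually h3, eventually_ge_atTop 1] with x hx hx1
    have hl : 0 ≤ Real.log x := Real.log_nonneg (by exact_mod_cast hx1)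
    rw [Real.norm_of_nonneg (by positivity), Real.norm_of_nonneg (by positivity),
      Real.rpow_natCast, Real.rpow_one, one_mul] at hx
    exact hx
  have hlog1 : ∀ᶠ x : ℕ in atTop, 2 ≤ Real.log x :=
    (Real.tendsto_log_atTop.comp tN).eventually_ge_atTop 2
  filter_upwards [h1, h2, hlogN, hlog1] with x h1 h2 h3 h4
  refine h2 _ (fun p hp => ?_) ?_
  · rw [mem_filter, mem_Icc] at hp
    exact ⟨hp.1.2, hp.2.1, hp.2.2.2⟩
  · -- the lower bound for the number of the elements
    set D := ⌈Real.log x ^ B₁⌉₊ with hD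
    have hp1 : 1 ≤ Real.log x ^ B₁ := one_le_pow₀ (by linarith)
    have hD1 : Real.log x ^ B₁ ≤ D := Nat.le_ceil _
    have hD2 : (D : ℝ) ≤ 2 * Real.log x ^ B₁ := by
      have := Nat.ceil_lt_add_one (show 0 ≤ Real.log x ^ B₁ by positivity)
      rw [← hD] at this
      linarith
    have h5 := h1 D hD1 (by
      calc (D : ℝ) * Real.log x ^ B₁ ≤ 2 * Real.log x ^ B₁ * Real.log x ^ B₁ := by gcongr
        _ ≤ Real.log x ^ 2 * Real.log x ^ B₁ * Real.log x ^ B₁ := by
            gcongr
            nlinarith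
        _ = Real.log x ^ (2 * B₁ + 2) := by ring
        _ ≤ x := h3)
    have hD0 : (0 : ℝ) < D := by linarith
    have h6 : (0 : ℝ) < (((Icc 1 D).filter (fun d => ∀ F ⊆ range 1, 0 ∈ F →
        c₁ * (x / Real.log x ^ ((Fintype.card (Fin 1) + 1) * F.card)) ≤
          (((Icc 1 x).filter (fun p => ∀ j ∈ F,
            PrimeAlmost (fun _ : Fin 1 => quad 1 1 1) R ((x : ℝ) ^ (1 / (R : ℝ)))
              (p + j * d))).card : ℝ))).card : ℝ) := lt_of_lt_of_le (by positivity) h5
    have h7 := card_pos.1 (Nat.cast_pos.1 h6)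
    obtain ⟨d, hd⟩ := h7
    rw [mem_filter] at hd
    have h8 := hd.2 {0} (by simp) (by simp)
    refine le_trans ?_ (h8.trans ?_)
    · simp
    · have : (Icc 1 x).filter (fun p => ∀ j ∈ ({0} : Finset ℕ),
            PrimeAlmost (fun _ : Fin 1 => quad 1 1 1) R ((x : ℝ) ^ (1 / (R : ℝ)))
              (p + j * d)) ⊆
          (Icc 1 x).filter (fun p => AlmostPair R ((x : ℝ) ^ (1 / (R : ℝ))) p) := by
        intro p hp
        rw [mem_filter] at hp ⊢
        refine ⟨hp.1, ?_⟩
        have := hp.2 0 (by simp)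
        rw [zero_mul, add_zero] at this
        exact prime_almost this
      exact_mod_cast card_le_card this

end Pool.Agent.Results.MP_82233c_nt.PopularDifferences
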