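import Pool.Agent.L5helper16.RG.Eul

set_option autoImplicit false

/-!
# Primes `p` with `p² + p + 1` almost prime: the constant `H` and the law of the next ones

The PRIMES `p` are counted in all windows of length `δ N` for which `p² + p + 1` has no prime factor `≤ N ^ (1 / r)`
(so at most `3 r` prime factors): for large `r` and `N` their number is, up to the factor `1 + O (ε)`, the one predicted
by Bateman and Stemmler, with the constant `H` of the problem. The number of the almost primes `n` with almost prime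
`n² + n + 1` which follow such a prime, up to a distance proportional to the mean distance, has the Poisson law, up
to `ε`.
-/

namespace Pool.Agent.Results.MP_82233c_nt.PrimesWithAlmostPrimeValue

open Finset Filter Topology

/-- `1`, `0`, `-1` according as `p ≡ 1, 0, -1` modulo `3` -/
def chi (p : ℕ) : ℤ := if p % 3 = 1 then 1 else if p % 3 = 2 then -1 else 0

/-- The partial products of the constant `H` of the problem. -/
noncomputable def partialH (z : ℕ) : ℝ :=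
  1 / 2 * ∏ p ∈ (Icc 1 z).filter Nat.Prime, (1 - 1 / (p : ℝ))⁻¹ ^ 2 * (1 - (2 + (chi p : ℝ)) / p)

/-- neither `n` nor `n² + n + 1` has a prime factor `q ≤ N ^ (1 / r)` -/
def Good (N r n : ℕ) : Prop :=
  ∀ q : ℕ, q.Prime → (q : ℝ) ≤ (N : ℝ) ^ (1 / (r : ℝ)) → ¬ q ∣ n ∧ ¬ q ∣ n ^ 2 + n + 1

open Classical in
/-- the good PRIMES `p` in `(A, A + L]` -/
noncomputable def P (N r A L : ℕ) : Finset ℕ := (Ioc A (A + L)).filter (fun p => p.Prime ∧ Good N r p)

open Classical in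
/-- the number of the good `n` in `(p, p + T]` -/
noncomputable def Next (N r T p : ℕ) : ℕ := ((Ioc p (p + T)).filter (fun n => Good N r n)).card

/-- the product of `1 - (2 + chi q) / q` over the primes `q ≤ N ^ (1 / r)` -/
noncomputable def V (N r : ℕ) : ℝ :=
  ∏ q ∈ (Icc 1 ⌊(N : ℝ) ^ (1 / (r : ℝ))⌋₊).filter Nat.Prime, (1 - (2 + (chi q : ℝ)) / q)

open Pool.Agent.W123.RP Pool.Agent.W123.RU.Poly Pool.Agent.H373R2.T7 in
lemma V_eq (N r : ℕ) : V N r = Vq (Q Pool.Agent.L5helper16.RG.ff) ⌊(N : ℝ) ^ (1 / (r : ℝ))⌋₊ := by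
  unfold V Vq
  apply prod_congr rfl
  intro p hp
  have hp2 := (mem_filter.1 hp).2
  have h5 : (nuB (Q Pool.Agent.L5helper16.RG.ff) p : ℝ) = 2 + (chi p : ℝ) := by
    exact_mod_cast Pool.Agent.L5helper16.RG.nu_ff p hp2
  rw [h5]

open Pool.Agent.W123.RP Pool.Agent.H373R2.T7 Pool.Agent.W123.RU.Poly Pool.Agent.TH464.PO in
lemma good_iff (N r n : ℕ) : Good N r n ↔
    Sf (Q Pool.Agent.L5helper16.RG.ff) ⌊(N : ℝ) ^ (1 / (r : ℝ))⌋₊ n := by
  have key : ∀ q : ℕ, (¬ Q Pool.Agent.L5helper16.RG.ff q n ↔ (¬ q ∣ n ∧ ¬ q ∣ n ^ 2 + n + 1)) := by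
    intro q
    rw [Pool.Agent.L5helper16.RG.ff_Q, Pool.Agent.L5helper16.QX.FA_eval]
    have e : (n : ℤ) ^ 2 + n + 1 + 0 = ((n ^ 2 + n + 1 : ℕ) : ℤ) := by
      push_cast
      ring
    rw [e, Int.natCast_dvd_natCast]
    tauto
  unfold Good Sf
  constructor
  · intro h q hq
    obtain ⟨h1, h2⟩ := mem_pz.1 hq
    exact (key q).2 (h q h2 ((Nat.le_floor_iff (by positivity)).1 h1))
  · intro h q hq hqN
    exact (key q).1 (h q (mem_pz.2 ⟨Nat.le_floor hqN, hq⟩))

/-- arithmetic of the relative errors -/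
lemma errors {p w l k ε : ℝ} (L : ℝ) (hL : 0 < L) (hl : 0 ≤ l) (hk : 0 ≤ k) (hε : 0 < ε) (hε1 : ε ≤ 1)
    (h1 : |p * L - l * w| ≤ ε / 4 * (l * w)) (h2 : |w * L - k| ≤ ε / 4 * k) :
    |p - k * l / L ^ 2| ≤ ε * (k * l / L ^ 2) := by
  obtain ⟨a1, a2⟩ := abs_le.1 h1
  obtain ⟨b1, b2⟩ := abs_le.1 h2
  have hL3 : 0 < L ^ 2 := by positivity
  have e : p - k * l / L ^ 2 = (p * L ^ 2 - k * l) / L ^ 2 := by
    field_simp
  have hkl : 0 ≤ k * l := mul_nonneg hk hl
  rw [e, abs_div, abs_of_pos hL3, ← mul_div_assoc, div_le_div_iff_of_pos_right hL3, abs_le]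
  have c1 : (1 - ε / 4) * (l * (w * L)) ≤ p * L ^ 2 := by
    have := mul_le_mul_of_nonneg_right (show (1 - ε / 4) * (l * w) ≤ p * L by linarith) hL.le
    nlinarith
  have c2 : p * L ^ 2 ≤ (1 + ε / 4) * (l * (w * L)) := by
    have := mul_le_mul_of_nonneg_right (show p * L ≤ (1 + ε / 4) * (l * w) by linarith) hL.le
    nlinarith
  have d1 : (1 - ε / 4) * (k * l) ≤ l * (w * L) := by
    have := mul_le_mul_of_nonneg_left (show (1 - ε / 4) * k ≤ w * L by linarith) hl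
    nlinarith
  have d2 : l * (w * L) ≤ (1 + ε / 4) * (k * l) := by
    have := mul_le_mul_of_nonneg_left (show w * L ≤ (1 + ε / 4) * k by linarith) hl
    nlinarith
  have e1 := mul_le_mul_of_nonneg_left d1 (show 0 ≤ 1 - ε / 4 by linarith)
  have e2 := mul_le_mul_of_nonneg_left d2 (show 0 ≤ 1 + ε / 4 by linarith)
  constructor
  · nlinarith
  · nlinarith

/-- few prime factors -/
lemma few (z : ℝ) (s n : ℕ) (hn : 0 < n) (hz : 1 ≤ z) (hnz : (n : ℝ) ≤ z ^ s)
    (h : ∀ q : ℕ, q.Prime → q ∣ n → z < q) : n.primeFactorsList.length ≤ s := by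
  have h1 : ∀ l : List ℕ, (∀ q ∈ l, z < (q : ℝ)) → l ≠ [] → z ^ l.length < ((l.prod : ℕ) : ℝ) := by
    intro l
    induction l with
    | nil => intro _ h; exact absurd rfl h
    | cons a t ih =>
      intro hl _
      have ha := hl a (by simp)
      rw [List.length_cons, List.prod_cons, pow_succ, Nat.cast_mul, mul_comm]
      rcases t with _ | ⟨b, t⟩
      · simpa using ha
      · have h2 := ih (fun q hq => hl q (by simp only [List.mem_cons] at hq ⊢; tauto)) (by simp)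
        exact mul_lt_mul'' ha h2 (by linarith) (by positivity)
  by_contra hcon
  rw [not_le] at hcon
  have hne : n.primeFactorsList ≠ [] := by
    intro h0
    rw [h0] at hcon
    simp at hcon
  have h2 := h1 n.primeFactorsList (fun q hq => h q (Nat.prime_of_mem_primeFactorsList hq)
    (Nat.dvd_of_mem_primeFactorsList hq)) hne
  rw [Nat.prod_primeFactorsList hn.ne'] at h2
  have h3 : z ^ s ≤ z ^ n.primeFactorsList.length := pow_le_pow_right₀ hz hcon.le
  linarith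

open Classical in
/-- **Primes `p` with almost prime `p² + p + 1`.** -/
theorem result : ∃ H : ℝ, 0 < H ∧ Tendsto partialH atTop (𝓝 H) ∧
    ∀ δ x₀ ε : ℝ, 0 < δ → δ ≤ 1 → 0 < ε → ε ≤ 1 → ∃ r₀ : ℕ, 2 ≤ r₀ ∧ ∀ r : ℕ, r₀ ≤ r →
      Tendsto (fun N : ℕ => V N r * Real.log N ^ 2) atTop
        (𝓝 (2 * H * (r * Real.exp (-Real.eulerMascheroniConstant)) ^ 2)) ∧
      ∀ᶠ N : ℕ in atTop,
        (∀ n : ℕ, 0 < n → n ≤ N → Good N r n →
          n.primeFactorsList.length ≤ r ∧ (n ^ 2 + n + 1).primeFactorsList.length ≤ 3 * r) ∧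
        (∀ p : ℕ, (N : ℝ) ^ (1 / (r : ℝ)) < p → p.Prime → (p ^ 2 + p + 1).Prime → Good N r p) ∧
        ∀ A L : ℕ, δ * N ≤ L → A + L ≤ N →
          |((P N r A L).card : ℝ) -
              2 * H * (r * Real.exp (-Real.eulerMascheroniConstant)) * L / Real.log N ^ 2| ≤
            ε * (2 * H * (r * Real.exp (-Real.eulerMascheroniConstant)) * L / Real.log N ^ 2) ∧
          ∀ T : ℕ, T * V N r ≤ x₀ → ∀ B : Finset ℕ,
            |(((P N r A L).filter (fun p => Next N r T p ∈ B)).card : ℝ) -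
              (P N r A L).card * ∑ j ∈ B, Real.exp (-(T * V N r)) * (T * V N r) ^ j / j.factorial| ≤
                ε * (P N r A L).card := by
  obtain ⟨H, hH0, hH⟩ := Pool.Agent.L5helper16.RG.Hp_lim
  refine ⟨H, hH0, hH, ?_⟩
  intro δ x₀ ε hδ hδ1 hε hε1
  obtain ⟨r₀, hr₀, hmain⟩ := Pool.Agent.Y879.PR.prime_full 1 2 2 squarefree_one 1 1 1 δ one_pos one_pos
    one_pos hδ hδ1 x₀ (ε / 4) (by positivity) (by linarith)
  refine ⟨r₀, hr₀, fun r hr => ?_⟩
  have hr1 : 1 ≤ r := by omega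
  have hrr : (0 : ℝ) < r := by exact_mod_cast hr1
  have hy : Tendsto (fun N : ℕ => (N : ℝ) ^ (1 / (r : ℝ))) atTop atTop :=
    (tendsto_rpow_atTop (by positivity)).comp tendsto_natCast_atTop_atTop
  have hfl : Tendsto (fun N : ℕ => ⌊(N : ℝ) ^ (1 / (r : ℝ))⌋₊) atTop atTop := tendsto_nat_floor_atTop.comp hy
  have hlogt : Tendsto (fun N : ℕ => Real.log (N : ℝ)) atTop atTop :=
    Real.tendsto_log_atTop.comp tendsto_natCast_atTop_atTop
  have hHp : Tendsto (fun N : ℕ => Pool.Agent.L5helper16.RG.Hp ⌊(N : ℝ) ^ (1 / (r : ℝ))⌋₊) atTop (𝓝 (2 * H)) := by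
    have := (hH.comp hfl).const_mul 2
    refine this.congr (fun N => ?_)
    simp only [Function.comp]
    ring
  have hP1 := Pool.Agent.L5helper16.RG.P1_lim.comp hfl
  have hfr := Pool.Agent.L5helper16.RG.floor_log r hr1
  -- the density
  have hV : Tendsto (fun N : ℕ => V N r * Real.log N ^ 2) atTop
      (𝓝 (2 * H * (r * Real.exp (-Real.eulerMascheroniConstant)) ^ 2)) := by
    have h4 := (hHp.mul (hP1.pow 2)).mul (hfr.pow 2)
    refine (h4.congr' ?_).trans (le_of_eq ?_)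
    · filter_upwards [hfl.eventually_ge_atTop 6] with N hN
      simp only [Function.comp]
      have hl : Real.log (⌊(N : ℝ) ^ (1 / (r : ℝ))⌋₊ : ℝ) ≠ 0 := by
        apply (Real.log_pos _).ne'
        exact_mod_cast (by omega : 1 < ⌊(N : ℝ) ^ (1 / (r : ℝ))⌋₊)
      rw [V_eq, Pool.Agent.L5helper16.RG.Vq_ff]
      field_simp
    · congr 1
      ring
  obtain ⟨k, hk⟩ : ∃ k : ℝ, k = 2 * H * (r * Real.exp (-Real.eulerMascheroniConstant)) := ⟨_, rfl⟩
  have hk0 : 0 < k := by rw [hk]; positivity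
  have hW : Tendsto (fun N : ℕ => Pool.Agent.L5helper16.RG.Hp ⌊(N : ℝ) ^ (1 / (r : ℝ))⌋₊ *
      Pool.Agent.L5helper16.RG.P1 ⌊(N : ℝ) ^ (1 / (r : ℝ))⌋₊ * Real.log N) atTop (𝓝 k) := by
    have h4 := (hHp.mul hP1).mul hfr
    refine (h4.congr' ?_).trans (le_of_eq ?_)
    · filter_upwards [hfl.eventually_ge_atTop 6] with N hN
      simp only [Function.comp]
      have hl : Real.log (⌊(N : ℝ) ^ (1 / (r : ℝ))⌋₊ : ℝ) ≠ 0 := by
        apply (Real.log_pos _).ne'
        exact_mod_cast (by omega : 1 < ⌊(N : ℝ) ^ (1 / (r : ℝ))⌋₊)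
      field_simp
    · congr 1
      rw [hk]
      ring
  have hWk : ∀ᶠ N : ℕ in atTop, |Pool.Agent.L5helper16.RG.Hp ⌊(N : ℝ) ^ (1 / (r : ℝ))⌋₊ *
      Pool.Agent.L5helper16.RG.P1 ⌊(N : ℝ) ^ (1 / (r : ℝ))⌋₊ * Real.log N - k| ≤ ε / 4 * k := by
    have h1 := (hW.sub_const k).abs
    rw [sub_self, abs_zero] at h1
    exact h1.eventually (eventually_le_nhds (by positivity))
  have hVle : ∀ᶠ N : ℕ in atTop, V N r * Real.log N ^ 2 ≤
      2 * H * (r * Real.exp (-Real.eulerMascheroniConstant)) ^ 2 + 1 :=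
    hV.eventually (eventually_le_nhds (by linarith))
  refine ⟨hV, ?_⟩
  filter_upwards [hWk, hmain r hr 1, hfl.eventually_ge_atTop 6, eventually_ge_atTop 3, hVle,
    hlogt.eventually_ge_atTop (2 * H * (r * Real.exp (-Real.eulerMascheroniConstant)) ^ 2 + 1),
    hy.eventually_ge_atTop 3] with N hN1 hN2 hN3 hN4 hN5 hN6 hN7
  have hN0 : (3 : ℝ) ≤ N := by exact_mod_cast hN4
  have hNpos : (0 : ℝ) < N := by linarith
  have hlog : 0 < Real.log N := Real.log_pos (by linarith)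
  have hpow : ((N : ℝ) ^ (1 / (r : ℝ))) ^ r = N := by
    rw [← Real.rpow_natCast, ← Real.rpow_mul hNpos.le, one_div, inv_mul_cancel₀ hrr.ne', Real.rpow_one]
  refine ⟨?_, ?_, ?_⟩
  · intro n hn hnN hg
    have hz1 : (1 : ℝ) ≤ (N : ℝ) ^ (1 / (r : ℝ)) := by linarith
    have hnN' : (n : ℝ) ≤ N := by exact_mod_cast hnN
    have hn1 : (1 : ℝ) ≤ n := by exact_mod_cast hn
    constructor
    · apply few ((N : ℝ) ^ (1 / (r : ℝ))) r n hn hz1
      · rw [hpow]
        exact hnN'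
      · intro q hq hd
        by_contra hc
        exact (hg q hq (not_lt.1 hc)).1 hd
    · apply few ((N : ℝ) ^ (1 / (r : ℝ))) (3 * r) (n ^ 2 + n + 1) (by positivity) hz1
      · rw [mul_comm, pow_mul, hpow]
        push_cast
        have h1 : (n : ℝ) ^ 2 + n + 1 ≤ 3 * N ^ 2 := by nlinarith
        have h2 : 3 * (N : ℝ) ^ 2 ≤ N * N ^ 2 := mul_le_mul_of_nonneg_right hN0 (by positivity)
        calc (n : ℝ) ^ 2 + n + 1 ≤ 3 * N ^ 2 := h1
          _ ≤ N * N ^ 2 := h2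
          _ = N ^ 3 := by ring
      · intro q hq hd
        by_contra hc
        exact (hg q hq (not_lt.1 hc)).2 hd
  · intro p hp1 hp2 hp3 q hq hqN
    constructor
    · intro hd
      rw [(Nat.prime_dvd_prime_iff_eq hq hp2).1 hd] at hqN
      linarith
    · intro hd
      rw [(Nat.prime_dvd_prime_iff_eq hq hp3).1 hd] at hqN
      push_cast at hqN
      have : (0 : ℝ) ≤ (p : ℝ) ^ 2 := by positivity
      linarith
  intro A L hδL hAL
  have hVlog : Pool.Agent.W123.RP.Vq (Pool.Agent.W123.RU.Poly.Q Pool.Agent.L5helper16.RG.ff)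
      ⌊(N : ℝ) ^ (1 / (r : ℝ))⌋₊ ≤ 1 / Real.log N := by
    rw [← V_eq, le_div_iff₀ hlog]
    have h1 : V N r * Real.log N * Real.log N ≤ 1 * Real.log N := by
      calc V N r * Real.log N * Real.log N = V N r * Real.log N ^ 2 := by ring
        _ ≤ _ := hN5
        _ ≤ 1 * Real.log N := by rw [one_mul]; exact hN6
    exact le_of_mul_le_mul_right h1 hlog
  obtain ⟨G1, G2⟩ := hN2 Pool.Agent.L5helper16.RG.ff 0
    (Pool.Agent.L5helper16.RG.us_ff _ _ (by rw [Real.rpow_one]; linarith)) (by simp)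
    (fun p n hp h1 => absurd (Nat.dvd_one.1 h1) hp.one_lt.ne')
    ⟨0, fun n => by
      change (Polynomial.X : Polynomial ℤ).eval (n : ℤ) = _
      rw [Polynomial.eval_X]
      push_cast
      ring⟩ hVlog (by rw [Nat.cast_zero]; positivity) N (by rw [Real.rpow_one]) A L hδL hAL
  have hPeq : P N r A L = Pool.Agent.Y879.PR.Om 1 0
      (Pool.Agent.W123.RU.Poly.Q Pool.Agent.L5helper16.RG.ff) ⌊(N : ℝ) ^ (1 / (r : ℝ))⌋₊ A L := by
    unfold P Pool.Agent.Y879.PR.Om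
    apply filter_congr
    intro n _
    rw [one_mul, add_zero, good_iff]
  have hVz : Pool.Agent.H373R2.T7.Vz ⌊(N : ℝ) ^ (1 / (r : ℝ))⌋₊ =
      Pool.Agent.L5helper16.RG.P1 ⌊(N : ℝ) ^ (1 / (r : ℝ))⌋₊ := rfl
  rw [← hPeq] at G1 G2
  refine ⟨?_, ?_⟩
  · rw [← hk]
    apply errors (Real.log N) hlog (Nat.cast_nonneg L) hk0.le hε hε1 _ hN1
    have e : Pool.Agent.W123.RP.Vq (Pool.Agent.W123.RU.Poly.Q Pool.Agent.L5helper16.RG.ff)
        ⌊(N : ℝ) ^ (1 / (r : ℝ))⌋₊ / Pool.Agent.H373R2.T7.Vz ⌊(N : ℝ) ^ (1 / (r : ℝ))⌋₊ =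
        Pool.Agent.L5helper16.RG.Hp ⌊(N : ℝ) ^ (1 / (r : ℝ))⌋₊ *
          Pool.Agent.L5helper16.RG.P1 ⌊(N : ℝ) ^ (1 / (r : ℝ))⌋₊ := by
      rw [Pool.Agent.L5helper16.RG.Vq_ff, hVz]
      have h0 := (Pool.Agent.L5helper16.RG.P1_pos ⌊(N : ℝ) ^ (1 / (r : ℝ))⌋₊).ne'
      field_simp
    rw [e] at G1
    exact G1
  · intro T hT B
    rw [V_eq] at hT ⊢
    have h1 := G2 T hT B
    have e : (P N r A L).filter (fun p => Next N r T p ∈ B) = (P N r A L).filter (fun n =>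
        Pool.Agent.TH464.PO.Wc (Pool.Agent.TH464.PO.Sf (Pool.Agent.W123.RU.Poly.Q Pool.Agent.L5helper16.RG.ff)
          ⌊(N : ℝ) ^ (1 / (r : ℝ))⌋₊) n T ∈ B) := by
      apply filter_congr
      intro n _
      have e2 : Next N r T n = Pool.Agent.TH464.PO.Wc
          (Pool.Agent.TH464.PO.Sf (Pool.Agent.W123.RU.Poly.Q Pool.Agent.L5helper16.RG.ff)
          ⌊(N : ℝ) ^ (1 / (r : ℝ))⌋₊) n T := by
        unfold Next Pool.Agent.TH464.PO.Wc
        congr 1
        apply filter_congr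
        intro m _
        exact good_iff N r m
      rw [e2]
    rw [e]
    refine h1.trans ?_
    apply mul_le_mul_of_nonneg_right _ (Nat.cast_nonneg _)
    linarith

end Pool.Agent.Results.MP_82233c_nt.PrimesWithAlmostPrimeValue
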