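import Pool.Agent.L5helper2.BH.A9

/-! MP_82233c_nt (helper2): the law of Bateman and Horn for all systems of at least two polynomials (in particular for
`m` and `m ^ 2 + m + 1`) in the random set of Banks, Ford and Tao, with square-root error terms. -/

set_option autoImplicit false

namespace Pool.Agent.Results.MP_82233c_nt.RandomPrimes

open Finset Polynomial MeasureTheory ProbabilityTheory Filter Topology

/-- the integer `n` belongs to the sifted set: `n ≢ b p` modulo `p` for all primes `p ≤ |n| ^ θ` -/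
def Sifted (θ : ℝ) (b : ℕ → ℕ) (n : ℤ) : Prop :=
  ∀ p : ℕ, p.Prime → (p : ℝ) ≤ |(n : ℝ)| ^ θ → ¬ n ≡ (b p : ℤ) [ZMOD p]

/-- the number of the residues `r` modulo `p` with `f i (r) ≡ b` modulo `p` for some `i` with `p ≤ |f i (m)| ^ θ` -/
noncomputable def rho {k : ℕ} (θ : ℝ) (f : Fin k → ℤ[X]) (m b p : ℕ) : ℕ := by
  classical
  exact #((range p).filter fun r : ℕ => ∃ i, (p : ℝ) ≤ |(((f i).eval (m : ℤ) : ℤ) : ℝ)| ^ θ ∧
    (f i).eval (r : ℤ) ≡ (b : ℤ) [ZMOD p])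

/-- the number of the residues `r` modulo `p` with `f i (r) ≡ b` modulo `p` for some `i` -/
noncomputable def rhoAll {k : ℕ} (f : Fin k → ℤ[X]) (b p : ℕ) : ℕ := by
  classical
  exact #((range p).filter fun r : ℕ => ∃ i, (f i).eval (r : ℤ) ≡ (b : ℤ) [ZMOD p])

open Classical in
theorem result {Ω : Type} [MeasurableSpace Ω] (P : Measure Ω) [IsProbabilityMeasure P] (a : ℕ → Ω → ℕ)
    (hmeas : ∀ p, Measurable (a p)) (hind : iIndepFun (fun p : Nat.Primes => a p) P)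
    (hunif : ∀ p r : ℕ, p.Prime → r < p → P.real {ω | a p ω = r} = 1 / p) (θ : ℝ) (hθ : 0 < θ) :
    ∀ᵐ ω ∂P, ∀ k : ℕ, 2 ≤ k → ∀ f : Fin k → ℤ[X], (∀ i, 1 ≤ (f i).natDegree) → Function.Injective f →
      (∀ ε : ℝ, 0 < ε → ∃ x0 : ℕ, ∀ x : ℕ, x0 ≤ x →
        |(#((Icc 1 x).filter fun m : ℕ => ∀ i, Sifted θ (fun p => a p ω) ((f i).eval (m : ℤ))) : ℝ) -
          ∑ m ∈ Icc 1 x, ∏ p ∈ (Icc 1 (univ.sup fun i => ⌊|(((f i).eval (m : ℤ) : ℤ) : ℝ)| ^ θ⌋₊)).filter Nat.Prime,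
            (1 - (rho θ f m (a p ω) p : ℝ) / p)| ≤ (x : ℝ) ^ (1 / 2 + ε)) ∧
      ∃ C : ℝ, 0 ≤ C ∧
        (0 < C ↔ ∀ p : ℕ, p.Prime → ∃ r : ℕ, ∀ i, ¬ (f i).eval (r : ℤ) ≡ (a p ω : ℤ) [ZMOD p]) ∧
        Tendsto (fun z : ℕ => ∏ p ∈ (Icc 1 z).filter Nat.Prime,
          (1 - (rhoAll f (a p ω) p : ℝ) / p) / (1 - 1 / (p : ℝ)) ^ k) atTop (𝓝 C) ∧
        Tendsto (fun x : ℕ => (#((Icc 1 x).filter fun m : ℕ =>
            ∀ i, Sifted θ (fun p => a p ω) ((f i).eval (m : ℤ))) : ℝ) * Real.log x ^ k / x) atTop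
          (𝓝 (C * ∏ i, (Real.exp (-Real.eulerMascheroniConstant) / (θ * (f i).natDegree)))) := by
  have hS : L5helper2.BH.Sys P a := ⟨inferInstance, hmeas, hind, hunif⟩
  rw [ae_all_iff]
  intro k
  have hcong : ∀ (p : ℕ) (u v : ℤ), u ≡ v [ZMOD p] ↔ (p : ℤ) ∣ u - v := by
    intro p u v
    rw [Int.modEq_iff_dvd]
    exact dvd_sub_comm
  filter_upwards [L5helper2.BH.nat_all (k := k) hS hθ] with ω hω _ f hf hinj
  obtain ⟨hA, C, hC0, hC1, hC2, hC3⟩ := hω f hf hinj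
  have hcount : ∀ x : ℕ, ∑ n ∈ Ioc 0 x, L5helper2.BH.Fn f (L5helper2.BH.lev θ f n) a n ω =
      (#((Icc 1 x).filter fun m : ℕ => ∀ i, Sifted θ (fun p => a p ω) ((f i).eval (m : ℤ))) : ℝ) := by
    intro x
    rw [L5helper2.BH.sum_Fn]
    rfl
  have hrF : ∀ p : ℕ, L5helper2.BH.rF f p (a p ω) = rhoAll f (a p ω) p := by
    intro p
    unfold L5helper2.BH.rF rhoAll
    congr 1
    refine filter_congr fun r _ => exists_congr fun i => ?_
    rw [hcong]
  have hrh : ∀ m p : ℕ, L5helper2.BH.rh f (L5helper2.BH.lev θ f m) p (a p ω) = rho θ f m (a p ω) p := by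
    intro m p
    unfold L5helper2.BH.rh rho
    congr 1
    refine filter_congr fun r _ => exists_congr fun i => ?_
    rw [hcong]
    refine and_congr ?_ Iff.rfl
    exact Nat.le_floor_iff (by positivity)
  have hWn : ∀ x : ℕ, ∑ n ∈ Ioc 0 x, L5helper2.BH.Wn f (L5helper2.BH.lev θ f n) a ω =
      ∑ m ∈ Icc 1 x, ∏ p ∈ (Icc 1 (univ.sup fun i => ⌊|(((f i).eval (m : ℤ) : ℤ) : ℝ)| ^ θ⌋₊)).filter Nat.Prime,
            (1 - (rho θ f m (a p ω) p : ℝ) / p) := by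
    intro x
    refine sum_congr rfl fun m _ => ?_
    unfold L5helper2.BH.Wn L5helper2.BH.pr
    refine prod_congr rfl fun p _ => ?_
    rw [hrh]
  refine ⟨fun ε hε => ?_, C, hC0, ?_, ?_, ?_⟩
  · obtain ⟨x0, hx0⟩ := hA ε hε
    refine ⟨x0, fun x hx => ?_⟩
    have h3 := hx0 x hx
    rwa [hcount, hWn] at h3
  · rw [hC1]
    refine forall_congr' fun p => imp_congr_right fun _ => exists_congr fun r => forall_congr' fun i => ?_
    rw [hcong]
  · refine hC2.congr fun z => ?_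
    unfold L5helper2.BH.tF L5helper2.BH.wF L5helper2.BH.vF
    rw [← prod_pow, ← prod_div_distrib]
    refine prod_congr rfl fun p _ => ?_
    rw [hrF]
  · refine hC3.congr fun x => ?_
    rw [hcount]

end Pool.Agent.Results.MP_82233c_nt.RandomPrimes
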