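import Pool.Agent.TH977.PW.Inst

set_option autoImplicit false

/-!
# Regular neighbourhoods of the primes `p` with `p² + p + 1` prime, at all scales

Let `R r` be the set of the positive integers `m` such that all prime factors of `m` and of `m² + m + 1` are larger
than `m ^ (1 / r)`; it contains all primes `p` for which `p² + p + 1` is prime. There are at least `κ X / log² X`
PRIMES `p` in `(X, 2 X]` which belong to `R r`, with `p² + p + 1` a product of at most `r` primes. Let `A` be an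
ARBITRARY subset of `R r` (for example the set of all primes `p` with `p² + p + 1` prime). In every short interval
`(X, X + Y]`, `X ^ θ ≤ Y ≤ X / 2`, all but `ε Y / log² X` of the elements of `A` are regular points of `A`: the
elements of `A` in ALL intervals of length between `log² X / c` and `Y` around them have the right order, and
constant density up to `δ` at all but `B (ε, δ)` dyadic scales.
-/

namespace Pool.Agent.Results.MP_82233c_nt.RegularNeighbourhoods

open Finset Filter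
open Pool.Agent.TH977.PW (N Irregular)

/-- `m` is positive and all prime factors of `m` and of `m² + m + 1` are larger than `m ^ (1 / r)`. -/
def R (r : ℕ) : Set ℕ :=
  {m | 0 < m ∧ ∀ q : ℕ, q.Prime → (q ∣ m ∨ q ∣ m ^ 2 + m + 1) → (m : ℝ) ^ (1 / (r : ℝ)) < (q : ℝ)}

lemma ev (m : ℕ) : 1 * (m : ℤ) ^ 2 + 1 * m + 1 = ((m ^ 2 + m + 1 : ℕ) : ℤ) := by
  push_cast
  ring

/-- **Regular neighbourhoods of the primes `p` with `p² + p + 1` prime, at all scales.** -/
theorem result (θ : ℝ) (hθ : 0 < θ) (hθ1 : θ ≤ 1) :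
    ∃ r₀ : ℕ, 2 ≤ r₀ ∧ ∀ r : ℕ, r₀ ≤ r →
      (∀ p : ℕ, p.Prime → (p ^ 2 + p + 1).Prime → p ∈ R r) ∧
      (∃ κ : ℝ, 0 < κ ∧ ∀ᶠ X : ℕ in atTop,
        κ * X / Real.log X ^ 2 ≤
          N {p | p.Prime ∧ p ∈ R r ∧ (p ^ 2 + p + 1).primeFactorsList.length ≤ r} X (2 * X)) ∧
      ∀ ε : ℝ, 0 < ε → ∃ c : ℝ, 0 < c ∧ ∀ δ : ℝ, 0 < δ → ∃ B : ℕ,
        ∀ᶠ X : ℕ in atTop, ∀ Y : ℕ, (X : ℝ) ^ θ ≤ Y → 2 * Y ≤ X → ∀ A : Set ℕ, A ⊆ R r →
          (N (Irregular A 2 c δ B X Y) X (X + Y) : ℝ) ≤ ε * Y / Real.log X ^ 2 := by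
  obtain ⟨r0, hr0, h⟩ := Pool.Agent.TH977.PW.final_quad_prime 1 1 1 one_pos
    (by
      intro p hp h
      have h1 : (p : ℤ) ∣ 1 := h.1
      have h2 : p ∣ 1 := by exact_mod_cast h1
      exact hp.one_lt.ne' (Nat.dvd_one.1 h2))
    (by
      rintro ⟨x, hx⟩
      have : 0 ≤ x * x := mul_self_nonneg x
      omega)
    (by
      intro p hp
      by_cases h3 : p = 3
      · subst h3
        exact ⟨2, by norm_num, by norm_num⟩
      · refine ⟨1, fun h => hp.one_lt.ne' (Nat.dvd_one.1 h), fun h => h3 ?_⟩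
        have h1 : (p : ℤ) ∣ 3 := by simpa using h
        have h2 : p ∣ 3 := by exact_mod_cast h1
        exact (Nat.prime_dvd_prime_iff_eq hp Nat.prime_three).1 h2)
    (fun r => R r)
    (fun r => {p | p.Prime ∧ p ∈ R r ∧ (p ^ 2 + p + 1).primeFactorsList.length ≤ r})
    (fun r m _ hm => ⟨fun q hq hd => hm.2 q hq (Or.inl hd), fun q hq hd => hm.2 q hq (Or.inr (by
      rw [ev, Int.natCast_dvd_natCast] at hd
      exact hd))⟩)
    (fun r m hr hm h1 h2 => ⟨hm, ⟨hm.pos, fun q hq hd => by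
      rcases hd with hd | hd
      · exact Pool.Agent.TH977.PW.rpow_lt_dvd r m q hr hm hq hd
      · apply h1 q hq
        rw [ev, Int.natCast_dvd_natCast]
        exact hd⟩, by
      rw [ev, Int.natAbs_natCast] at h2
      exact h2⟩) θ hθ hθ1
  refine ⟨r0, hr0, fun r hr => ⟨?_, (h r hr).1, (h r hr).2⟩⟩
  intro p hp hpp
  refine ⟨hp.pos, fun q hq hd => ?_⟩
  rcases hd with hd | hd
  · exact Pool.Agent.TH977.PW.rpow_lt_dvd r p q (hr0.trans hr) hp hq hd
  · rw [(Nat.prime_dvd_prime_iff_eq hq hpp).1 hd]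
    exact Pool.Agent.TH977.PW.rpow_lt_of_le r p (p ^ 2 + p + 1) (hr0.trans hr) hp.two_le (by nlinarith)

end Pool.Agent.Results.MP_82233c_nt.RegularNeighbourhoods
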